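import Pool.Agent.W277X.PI.Rep

set_option autoImplicit false

/-! The representation given by a packing. -/

namespace Pool.Agent.W277X.PI

open Finset

variable {I : Type} [Fintype I] [DecidableEq I] {X Y : I → ℕ} {p a b : ℕ}

theorem build (hp : 1 ≤ p) (M : Finset (EE (sd X Y) (bk X Y) p a b)) (hM : ∀ e ∈ M, Valid e)
    (hd : ∀ e ∈ M, ∀ f ∈ M, e ≠ f → Disjoint (AS e) (AS f)) :
    ∃ (t : ℕ) (S : Fin a ⊕ Fin b → Finset (Fin t)),
      (∀ u v, u ≠ v → ((completeBipartiteGraph (Fin a) (Fin b)).Adj u v ↔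
        p ≤ (S u ∩ S v).card)) ∧
      t + M.card * ∑ i, X i * Y i ≤ M.card * Fintype.card I + p * (a * b) := by
  classical
  set MI : Finset (EE (sd X Y) (bk X Y) p a b × I) := M ×ˢ (univ : Finset I) with hMI
  -- the pairs of vertices
  set Cf : (Fin a ⊕ Fin b) → (Fin a ⊕ Fin b) → Finset {τ // τ ∈ MI} := fun u v =>
    univ.filter (fun τ => InB τ.1 u ∧ InB τ.1 v) with hCf
  have hCle : ∀ u v : Fin a ⊕ Fin b,
      (((vv u).1 = false ∧ (vv v).1 = true) ∨ ((vv u).1 = (vv v).1 ∧ (vv u).2 < (vv v).2)) →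
      (Cf u v).card ≤ lam p (vv u).1 (vv v).1 := by
    intro u v huv
    have h := card_le_lam M hM hd ((Cf u v).map ⟨Subtype.val, Subtype.val_injective⟩)
      (by
        intro τ hτ
        obtain ⟨σ, -, rfl⟩ := mem_map.1 hτ
        exact (mem_product.1 σ.2).1) u v huv
      (by
        intro τ hτ
        obtain ⟨σ, hσ, rfl⟩ := mem_map.1 hτ
        exact (mem_filter.1 hσ).2.1)
      (by
        intro τ hτ
        obtain ⟨σ, hσ, rfl⟩ := mem_map.1 hτ
        exact (mem_filter.1 hσ).2.2)
    rwa [card_map] at h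
  set c : Fin a × Fin b → ℕ := fun g => (Cf (Sum.inl g.1) (Sum.inr g.2)).card with hc
  have hcp : ∀ g, c g ≤ p := by
    intro g
    have h := hCle (Sum.inl g.1) (Sum.inr g.2) (Or.inl ⟨rfl, rfl⟩)
    simpa [lam, vv] using h
  -- the index type
  let T : Type := {τ // τ ∈ MI} ⊕ (Σ g : Fin a × Fin b, Fin (p - c g))
  have hT : Fintype.card T = M.card * Fintype.card I + ∑ g, (p - c g) := by
    simp only [T]
    rw [Fintype.card_sum, Fintype.card_coe, hMI, card_product, card_univ, Fintype.card_sigma]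
    simp
  set S : Fin a ⊕ Fin b → Finset T := fun v => univ.filter (fun τ => Sum.elim
    (fun σ => InB σ.1 v) (fun σ => v = Sum.inl σ.1.1 ∨ v = Sum.inr σ.1.2) τ) with hS
  have hcross : ∀ (g : Fin a) (h : Fin b), p ≤ (S (Sum.inl g) ∩ S (Sum.inr h)).card := by
    intro g h
    have hsub : (Cf (Sum.inl g) (Sum.inr h)).disjSum
        ((univ : Finset (Fin (p - c (g, h)))).map
          ⟨fun k => (⟨(g, h), k⟩ : Σ g : Fin a × Fin b, Fin (p - c g)), by
            intro k k' hk
            simpa using hk⟩) ⊆ S (Sum.inl g) ∩ S (Sum.inr h) := by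
      intro τ hτ
      rw [mem_disjSum] at hτ
      rcases hτ with ⟨σ, hσ, rfl⟩ | ⟨σ, hσ, rfl⟩
      · obtain ⟨-, h1, h2⟩ := mem_filter.1 hσ
        exact mem_inter.2 ⟨mem_filter.2 ⟨mem_univ _, h1⟩, mem_filter.2 ⟨mem_univ _, h2⟩⟩
      · obtain ⟨k, -, rfl⟩ := mem_map.1 hσ
        exact mem_inter.2 ⟨mem_filter.2 ⟨mem_univ _, Or.inl rfl⟩,
          mem_filter.2 ⟨mem_univ _, Or.inr rfl⟩⟩
    have h1 := card_le_card hsub
    rw [card_disjSum, card_map, card_univ, Fintype.card_fin] at h1
    have h2 : (Cf (Sum.inl g) (Sum.inr h)).card = c (g, h) := rfl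
    omega
  have hsame : ∀ u v : Fin a ⊕ Fin b, (vv u).1 = (vv v).1 → (vv u).2 < (vv v).2 →
      (S u ∩ S v).card < p := by
    intro u v h1 h2
    have hsub : S u ∩ S v ⊆ (Cf u v).disjSum ∅ := by
      intro τ hτ
      obtain ⟨hu, hv⟩ := mem_inter.1 hτ
      rw [mem_disjSum]
      rcases τ with σ | σ
      · left
        exact ⟨σ, mem_filter.2 ⟨mem_univ _, (mem_filter.1 hu).2, (mem_filter.1 hv).2⟩, rfl⟩
      · exfalso
        have hu2 := (mem_filter.1 hu).2
        have hv2 := (mem_filter.1 hv).2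
        simp only [Sum.elim_inr] at hu2 hv2
        have hne : u ≠ v := by
          rintro rfl
          exact lt_irrefl _ h2
        rcases hu2 with hu2 | hu2 <;> rcases hv2 with hv2 | hv2
        · exact hne (hu2.trans hv2.symm)
        · rw [hu2, hv2] at h1
          simp [vv] at h1
        · rw [hu2, hv2] at h1
          simp [vv] at h1
        · exact hne (hu2.trans hv2.symm)
    have h3 := card_le_card hsub
    rw [card_disjSum, card_empty, add_zero] at h3
    have h4 := hCle u v (Or.inr ⟨h1, h2⟩)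
    unfold lam at h4
    rw [if_pos h1] at h4
    omega
  have hsame' : ∀ u v : Fin a ⊕ Fin b, u ≠ v → (vv u).1 = (vv v).1 → (S u ∩ S v).card < p := by
    intro u v hne h1
    rcases lt_trichotomy (vv u).2 (vv v).2 with h2 | h2 | h2
    · exact hsame u v h1 h2
    · exact absurd (vv_inj (Prod.ext h1 h2)) hne
    · rw [inter_comm]
      exact hsame v u h1.symm h2
  -- the number of sets
  have hsum : M.card * ∑ i, X i * Y i ≤ ∑ g, c g := by
    have h1 : ∑ g, c g = ∑ τ : {τ // τ ∈ MI}, (univ.filter (fun g : Fin a × Fin b =>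
        InB τ.1 (Sum.inl g.1) ∧ InB τ.1 (Sum.inr g.2))).card := by
      simp only [hc, hCf, card_filter]
      rw [sum_comm]
    rw [h1]
    have h2 : ∀ τ : {τ // τ ∈ MI}, X τ.1.2 * Y τ.1.2 ≤ (univ.filter (fun g : Fin a × Fin b =>
        InB τ.1 (Sum.inl g.1) ∧ InB τ.1 (Sum.inr g.2))).card := by
      intro τ
      exact cover_card τ.1 (hM _ (mem_product.1 τ.2).1) τ.1.2 rfl
    refine le_trans (le_of_eq ?_) (sum_le_sum fun τ _ => h2 τ)
    rw [sum_coe_sort MI (fun τ => X τ.2 * Y τ.2), hMI, sum_product]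
    simp
  have hcount : Fintype.card T + M.card * ∑ i, X i * Y i ≤
      M.card * Fintype.card I + p * (a * b) := by
    rw [hT]
    have h3 : ∑ g, (p - c g) + ∑ g, c g = p * (a * b) := by
      rw [← sum_add_distrib]
      rw [sum_congr rfl (fun g _ => Nat.sub_add_cancel (hcp g))]
      rw [sum_const, card_univ, Fintype.card_prod, Fintype.card_fin, Fintype.card_fin,
        smul_eq_mul, mul_comm]
    omega
  refine ⟨Fintype.card T, fun v => (S v).map (Fintype.equivFin T).toEmbedding, ?_, hcount⟩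
  intro u v huv
  rw [← map_inter, card_map]
  rcases u with g | g <;> rcases v with h | h
  · have h1 := hsame' _ _ huv rfl
    constructor
    · intro h2
      simp [completeBipartiteGraph] at h2
    · intro h2
      omega
  · have h1 := hcross g h
    constructor
    · intro _
      exact h1
    · intro _
      simp [completeBipartiteGraph]
  · have h1 := hcross h g
    rw [inter_comm] at h1
    constructor
    · intro _
      exact h1
    · intro _
      simp [completeBipartiteGraph]
  · have h1 := hsame' _ _ huv rfl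
    constructor
    · intro h2
      simp [completeBipartiteGraph] at h2
    · intro h2
      omega

end Pool.Agent.W277X.PI
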