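import Mathlib

set_option autoImplicit false

/-! Counting in products. -/

namespace Pool.Agent.W277X.PI

open Finset

variable {κ : Type} [Fintype κ] [DecidableEq κ]

/-- Prescribing the coordinates in `J`. -/
theorem fix_card (K : κ → ℕ) (J : Finset κ) (f : κ → ℕ) :
    (univ.filter (fun e : (j : κ) → Fin (K j) => ∀ j ∈ J, (e j : ℕ) = f j)).card *
      ∏ j ∈ J, K j ≤ ∏ j, K j := by
  classical
  have h1 : (univ.filter (fun e : (j : κ) → Fin (K j) => ∀ j ∈ J, (e j : ℕ) = f j)) ⊆
      Fintype.piFinset (fun j => if j ∈ J then univ.filter (fun i : Fin (K j) => (i : ℕ) = f j)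
        else univ) := by
    intro e he
    rw [Fintype.mem_piFinset]
    intro j
    by_cases hj : j ∈ J
    · simp only [hj, if_true, mem_filter, mem_univ, true_and]
      exact (mem_filter.1 he).2 j hj
    · simp [hj]
  have h2 := card_le_card h1
  rw [Fintype.card_piFinset] at h2
  have h3 : ∀ j, (if j ∈ J then univ.filter (fun i : Fin (K j) => (i : ℕ) = f j)
        else univ).card ≤ if j ∈ J then 1 else K j := by
    intro j
    by_cases hj : j ∈ J
    · simp only [hj, if_true]
      rw [card_le_one]
      intro a ha b hb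
      exact Fin.ext ((mem_filter.1 ha).2.trans (mem_filter.1 hb).2.symm)
    · simp [hj]
  have h4 := h2.trans (prod_le_prod' fun j _ => h3 j)
  have h5 : ∏ j ∈ J, K j = ∏ j, if j ∈ J then K j else 1 := by
    rw [prod_ite_mem, univ_inter]
  calc _ ≤ (∏ j, if j ∈ J then 1 else K j) * ∏ j ∈ J, K j := Nat.mul_le_mul_right _ h4
    _ = ∏ j, K j := by
      rw [h5, ← prod_mul_distrib]
      refine prod_congr rfl fun j _ => ?_
      by_cases hj : j ∈ J <;> simp [hj]

/-- Two coordinates agree. -/
theorem eq_card (K : κ → ℕ) (z z' : κ) (hz : z ≠ z') :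
    (univ.filter (fun e : (j : κ) → Fin (K j) => (e z : ℕ) = e z')).card * K z' ≤ ∏ j, K j := by
  classical
  have h1 : (univ.filter (fun e : (j : κ) → Fin (K j) => (e z : ℕ) = e z')) ⊆
      (range (K z)).biUnion fun g => univ.filter (fun e : (j : κ) → Fin (K j) =>
        ∀ j ∈ ({z, z'} : Finset κ), (e j : ℕ) = g) := by
    intro e he
    rw [mem_biUnion]
    refine ⟨e z, mem_range.2 (e z).2, mem_filter.2 ⟨mem_univ _, ?_⟩⟩
    intro j hj
    rw [mem_insert, mem_singleton] at hj
    rcases hj with rfl | rfl
    · rfl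
    · exact (mem_filter.1 he).2.symm
  have h2 := (card_le_card h1).trans card_biUnion_le
  rcases Nat.eq_zero_or_pos (K z) with h0 | h0
  · rw [card_eq_zero.2 (by
      ext e
      simp only [mem_filter, mem_univ, true_and, notMem_empty, iff_false]
      exact fun h => absurd (e z).2 (by omega))]
    simp
  · have h3 : ∀ g ∈ range (K z), (univ.filter (fun e : (j : κ) → Fin (K j) =>
        ∀ j ∈ ({z, z'} : Finset κ), (e j : ℕ) = g)).card * (K z * K z') ≤ ∏ j, K j := by
      intro g _
      have h := fix_card K {z, z'} (fun _ => g)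
      rwa [prod_pair hz] at h
    have h4 : K z * ((univ.filter (fun e : (j : κ) → Fin (K j) => (e z : ℕ) = e z')).card * K z')
        ≤ K z * ∏ j, K j := by
      calc _ = (univ.filter (fun e : (j : κ) → Fin (K j) => (e z : ℕ) = e z')).card *
            (K z * K z') := by ring
        _ ≤ (∑ g ∈ range (K z), (univ.filter (fun e : (j : κ) → Fin (K j) =>
              ∀ j ∈ ({z, z'} : Finset κ), (e j : ℕ) = g)).card) * (K z * K z') :=
            Nat.mul_le_mul_right _ h2
        _ = ∑ g ∈ range (K z), (univ.filter (fun e : (j : κ) → Fin (K j) =>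
              ∀ j ∈ ({z, z'} : Finset κ), (e j : ℕ) = g)).card * (K z * K z') := by
            rw [sum_mul]
        _ ≤ ∑ _g ∈ range (K z), ∏ j, K j := sum_le_sum h3
        _ = K z * ∏ j, K j := by simp
    exact Nat.le_of_mul_le_mul_left h4 h0

end Pool.Agent.W277X.PI
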