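import Pool.Agent.W277X.PI.Cnt
import Pool.Agent.V11181.Nib

set_option autoImplicit false

/-! Packing of templates by the weighted nibble. -/

namespace Pool.Agent.W277X.PI

open Finset

/-- the number of labels of a pair of sides -/
def lam (p : ℕ) (s s' : Bool) : ℕ := if s = s' then p - 1 else p

/-- the number of vertices of a side -/
def nn (a b : ℕ) (s : Bool) : ℕ := if s then b else a

/-- the pairs of the template -/
abbrev RR {Z I : Type} (side : Z → Bool) (block : Z → I) : Type :=
  {q : Z × Z // q.1 ≠ q.2 ∧ block q.1 = block q.2 ∧ ¬ (side q.1 = true ∧ side q.2 = false)}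

section

variable {Z I : Type} [Fintype Z] [DecidableEq Z] [DecidableEq I] (side : Z → Bool) (block : Z → I)
  (p a b : ℕ)

/-- the sizes of the coordinates -/
def KK : Z ⊕ RR side block → ℕ :=
  Sum.elim (fun z => nn a b (side z)) (fun q => lam p (side q.1.1) (side q.1.2))

/-- the labelled copies of the template -/
abbrev EE : Type := (j : Z ⊕ RR side block) → Fin (KK side block p a b j)

variable {side block p a b}

/-- the image of a vertex of the template -/
def vtx (e : EE side block p a b) (z : Z) : Bool × ℕ := (side z, (e (Sum.inl z)).val)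

/-- the pair is oriented -/
def Act (e : EE side block p a b) (q : RR side block) : Prop :=
  side q.1.1 ≠ side q.1.2 ∨ (e (Sum.inl q.1.1)).val < (e (Sum.inl q.1.2)).val

instance (e : EE side block p a b) (q : RR side block) : Decidable (Act e q) := by
  unfold Act
  infer_instance

/-- the labelled image of a pair -/
def vert (e : EE side block p a b) (q : RR side block) : (Bool × ℕ) × (Bool × ℕ) × ℕ :=
  (vtx e q.1.1, vtx e q.1.2, (e (Sum.inr q)).val)

/-- the labelled pairs of a copy -/
def AS (e : EE side block p a b) : Finset ((Bool × ℕ) × (Bool × ℕ) × ℕ) :=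
  (univ.filter (fun q => Act e q)).image (vert e)

/-- the copy is injective -/
def Valid (e : EE side block p a b) : Prop := ∀ z z', vtx e z = vtx e z' → z = z'

variable (side block) in
/-- the number of pairs of the template with given sides -/
def rr (s s' : Bool) : ℕ :=
  (univ.filter (fun q : RR side block => side q.1.1 = s ∧ side q.1.2 = s')).card


theorem bool_aux : ∀ s s' : Bool, ¬ (s = true ∧ s' = false) → ¬ (s' = true ∧ s = false) →
    s = s' := by decide

theorem deg_card (v : (Bool × ℕ) × (Bool × ℕ) × ℕ) :
    (univ.filter (fun e : EE side block p a b => v ∈ AS e)).card *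
      (nn a b v.1.1 * nn a b v.2.1.1 * lam p v.1.1 v.2.1.1) ≤
    rr side block v.1.1 v.2.1.1 * ∏ j, KK side block p a b j := by
  classical
  set F : RR side block → (Z ⊕ RR side block) → ℕ := fun q j =>
    Sum.elim (fun z => if z = q.1.1 then v.1.2 else v.2.1.2) (fun _ => v.2.2) j with hF
  set J : RR side block → Finset (Z ⊕ RR side block) := fun q =>
    {Sum.inl q.1.1, Sum.inl q.1.2, Sum.inr q} with hJ
  have h1 : (univ.filter (fun e : EE side block p a b => v ∈ AS e)) ⊆
      (univ.filter (fun q : RR side block => side q.1.1 = v.1.1 ∧ side q.1.2 = v.2.1.1)).biUnion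
        fun q => univ.filter (fun e : EE side block p a b => ∀ j ∈ J q, (e j : ℕ) = F q j) := by
    intro e he
    have he2 := (mem_filter.1 he).2
    unfold AS at he2
    obtain ⟨q, hq, hv⟩ := mem_image.1 he2
    subst hv
    rw [mem_biUnion]
    refine ⟨q, mem_filter.2 ⟨mem_univ _, rfl, rfl⟩, mem_filter.2 ⟨mem_univ _, ?_⟩⟩
    intro j hj
    simp only [hJ, mem_insert, mem_singleton] at hj
    rcases hj with rfl | rfl | rfl
    · simp [hF, vert, vtx]
    · have : q.1.2 ≠ q.1.1 := fun h => q.2.1 h.symm
      simp [hF, vert, vtx, this]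
    · simp [hF, vert]
  have h2 := (card_le_card h1).trans card_biUnion_le
  refine (Nat.mul_le_mul_right _ h2).trans ?_
  rw [sum_mul]
  have h3 : ∀ q ∈ (univ.filter (fun q : RR side block => side q.1.1 = v.1.1 ∧
      side q.1.2 = v.2.1.1)),
      (univ.filter (fun e : EE side block p a b => ∀ j ∈ J q, (e j : ℕ) = F q j)).card *
      (nn a b v.1.1 * nn a b v.2.1.1 * lam p v.1.1 v.2.1.1) ≤ ∏ j, KK side block p a b j := by
    intro q hq
    obtain ⟨-, hq1, hq2⟩ := mem_filter.1 hq
    have h := fix_card (KK side block p a b) (J q) (F q)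
    have hp : ∏ j ∈ J q, KK side block p a b j =
        nn a b v.1.1 * nn a b v.2.1.1 * lam p v.1.1 v.2.1.1 := by
      simp only [hJ]
      rw [prod_insert, prod_pair]
      · simp only [KK, Sum.elim_inl, Sum.elim_inr, hq1, hq2]
        ring
      · exact Sum.inl_ne_inr
      · simp only [mem_insert, mem_singleton, Sum.inl.injEq, reduceCtorEq, or_false]
        exact q.2.1
    rwa [hp] at h
  refine (sum_le_sum h3).trans ?_
  rw [sum_const, smul_eq_mul]
  rfl

theorem codeg_card {n : ℕ} (hn : 1 ≤ n) (hna : n ≤ a) (hnb : n ≤ b)
    (u v : (Bool × ℕ) × (Bool × ℕ) × ℕ) (huv : u ≠ v) :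
    (univ.filter (fun e : EE side block p a b => u ∈ AS e ∧ v ∈ AS e)).card * n ^ 3 ≤
    (Fintype.card (RR side block)) ^ 2 * ∏ j, KK side block p a b j := by
  classical
  set B : RR side block × RR side block → Finset (EE side block p a b) := fun x =>
    univ.filter (fun e => Act e x.1 ∧ Act e x.2 ∧ vert e x.1 = u ∧ vert e x.2 = v) with hB
  have h1 : (univ.filter (fun e : EE side block p a b => u ∈ AS e ∧ v ∈ AS e)) ⊆
      (univ : Finset (RR side block × RR side block)).biUnion B := by
    intro e he
    obtain ⟨-, hu, hv⟩ := mem_filter.1 he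
    unfold AS at hu hv
    obtain ⟨q, hq, hqu⟩ := mem_image.1 hu
    obtain ⟨q', hq', hqv⟩ := mem_image.1 hv
    rw [mem_biUnion]
    exact ⟨(q, q'), mem_univ _, mem_filter.2 ⟨mem_univ _, (mem_filter.1 hq).2,
      (mem_filter.1 hq').2, hqu, hqv⟩⟩
  have h2 := (card_le_card h1).trans card_biUnion_le
  refine (Nat.mul_le_mul_right _ h2).trans ?_
  rw [sum_mul]
  have h3 : ∀ x ∈ (univ : Finset (RR side block × RR side block)), (B x).card * n ^ 3 ≤
      ∏ j, KK side block p a b j := by
    rintro ⟨q, q'⟩ -
    rcases (B (q, q')).eq_empty_or_nonempty with h0 | ⟨e0, he0⟩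
    · rw [h0]
      simp
    · obtain ⟨-, ha1, ha2, hu, hv⟩ := mem_filter.1 he0
      simp only at ha1 ha2 hu hv
      set J0 : Finset Z := {q.1.1, q.1.2, q'.1.1, q'.1.2} with hJ0
      set J : Finset (Z ⊕ RR side block) := J0.map ⟨Sum.inl, Sum.inl_injective⟩ with hJ
      have hsub : B (q, q') ⊆ univ.filter (fun e : EE side block p a b =>
          ∀ j ∈ J, (e j : ℕ) = (fun j => ((e0 j : ℕ))) j) := by
        intro e he
        obtain ⟨-, -, -, hu', hv'⟩ := mem_filter.1 he
        simp only at hu' hv'
        refine mem_filter.2 ⟨mem_univ _, ?_⟩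
        intro j hj
        rw [hJ, mem_map] at hj
        obtain ⟨z, hz, rfl⟩ := hj
        have e1 : vert e q = vert e0 q := hu'.trans hu.symm
        have e2 : vert e q' = vert e0 q' := hv'.trans hv.symm
        unfold vert vtx at e1 e2
        simp only [Prod.mk.injEq, true_and] at e1 e2
        simp only [hJ0, mem_insert, mem_singleton] at hz
        simp only [Function.Embedding.coeFn_mk]
        rcases hz with rfl | rfl | rfl | rfl
        · exact e1.1
        · exact e1.2.1
        · exact e2.1
        · exact e2.2.1
      have hqq : q ≠ q' := by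
        rintro rfl
        exact huv (hu.symm.trans hv)
      have hsw : ¬ (q'.1.1 = q.1.2 ∧ q'.1.2 = q.1.1) := by
        rintro ⟨c1, c2⟩
        have hside : side q.1.1 = side q.1.2 := by
          have d1 := q.2.2.2
          have d2 := q'.2.2.2
          rw [c1, c2] at d2
          exact bool_aux _ _ d1 d2
        unfold Act at ha1 ha2
        rw [c1, c2] at ha2
        rcases ha1 with h | h
        · exact h hside
        · rcases ha2 with h' | h'
          · exact h' hside.symm
          · omega
      have hcard : 3 ≤ J0.card := by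
        by_contra hlt
        have h2c : ({q.1.1, q.1.2} : Finset Z).card = 2 := card_pair q.2.1
        have hsub2 : ({q.1.1, q.1.2} : Finset Z) ⊆ J0 := by
          intro z hz
          simp only [mem_insert, mem_singleton] at hz
          simp only [hJ0, mem_insert, mem_singleton]
          rcases hz with h | h
          · exact Or.inl h
          · exact Or.inr (Or.inl h)
        have heq : ({q.1.1, q.1.2} : Finset Z) = J0 :=
          eq_of_subset_of_card_le hsub2 (by omega)
        have m1 : q'.1.1 ∈ ({q.1.1, q.1.2} : Finset Z) := by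
          rw [heq]
          simp [hJ0]
        have m2 : q'.1.2 ∈ ({q.1.1, q.1.2} : Finset Z) := by
          rw [heq]
          simp [hJ0]
        simp only [mem_insert, mem_singleton] at m1 m2
        have hne := q'.2.1
        rcases m1 with m1 | m1 <;> rcases m2 with m2 | m2
        · exact hne (m1.trans m2.symm)
        · exact hqq (Subtype.ext (Prod.ext m1.symm m2.symm))
        · exact hsw ⟨m1, m2⟩
        · exact hne (m1.trans m2.symm)
      have h4 := fix_card (KK side block p a b) J (fun j => ((e0 j : ℕ)))
      have h5 : n ^ 3 ≤ ∏ j ∈ J, KK side block p a b j := by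
        have h6 : ∀ j ∈ J, n ≤ KK side block p a b j := by
          intro j hj
          rw [hJ, mem_map] at hj
          obtain ⟨z, hz, rfl⟩ := hj
          simp only [Function.Embedding.coeFn_mk, KK, Sum.elim_inl, nn]
          split_ifs
          · exact hnb
          · exact hna
        calc n ^ 3 ≤ n ^ J.card := Nat.pow_le_pow_right hn (by rw [hJ, card_map]; exact hcard)
          _ ≤ ∏ j ∈ J, KK side block p a b j := pow_card_le_prod _ _ _ h6
      calc (B (q, q')).card * n ^ 3 ≤ _ * ∏ j ∈ J, KK side block p a b j :=
            Nat.mul_le_mul (card_le_card hsub) h5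
        _ ≤ _ := h4
  refine (sum_le_sum h3).trans ?_
  rw [sum_const, smul_eq_mul, card_univ, Fintype.card_prod, pow_two]

theorem invalid_card {n : ℕ} (hna : n ≤ a) (hnb : n ≤ b) [DecidablePred (Valid (side := side)
    (block := block) (p := p) (a := a) (b := b))] :
    (univ.filter (fun e : EE side block p a b => ¬ Valid e)).card * n ≤
    (Fintype.card Z) ^ 2 * ∏ j, KK side block p a b j := by
  classical
  set B : Z × Z → Finset (EE side block p a b) := fun x =>
    if x.1 = x.2 then ∅ else univ.filter (fun e => (e (Sum.inl x.1) : ℕ) = e (Sum.inl x.2)) with hB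
  have h1 : (univ.filter (fun e : EE side block p a b => ¬ Valid e)) ⊆
      (univ : Finset (Z × Z)).biUnion B := by
    intro e he
    have h := (mem_filter.1 he).2
    unfold Valid at h
    push Not at h
    obtain ⟨z, z', hv, hne⟩ := h
    rw [mem_biUnion]
    refine ⟨(z, z'), mem_univ _, ?_⟩
    simp only [hB, hne, if_false, mem_filter, mem_univ, true_and]
    exact (Prod.ext_iff.1 hv).2
  have h2 := (card_le_card h1).trans card_biUnion_le
  refine (Nat.mul_le_mul_right _ h2).trans ?_
  rw [sum_mul]
  have h3 : ∀ x ∈ (univ : Finset (Z × Z)), (B x).card * n ≤ ∏ j, KK side block p a b j := by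
    rintro ⟨z, z'⟩ -
    by_cases hz : z = z'
    · simp [hB, hz]
    · simp only [hB, hz, if_false]
      refine le_trans ?_ (eq_card (KK side block p a b) (Sum.inl z) (Sum.inl z')
        (fun h => hz (Sum.inl_injective h)))
      refine Nat.mul_le_mul_left _ ?_
      simp only [KK, Sum.elim_inl, nn]
      split_ifs
      · exact hnb
      · exact hna
  refine (sum_le_sum h3).trans ?_
  rw [sum_const, smul_eq_mul, card_univ, Fintype.card_prod, pow_two]

end

end Pool.Agent.W277X.PI
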