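import Pool.Agent.W277X.PI.Pack

set_option autoImplicit false

/-! Packing of templates by the weighted nibble. -/

namespace Pool.Agent.W277X.PI

open Finset

section

variable {Z I : Type} [Fintype Z] [DecidableEq Z] [DecidableEq I] (side : Z → Bool) (block : Z → I)
  (p : ℕ)

theorem pack (q0 : RR side block) (hq0 : side q0.1.1 ≠ side q0.1.2) (hZ : 3 ≤ Fintype.card Z)
    (C : ℕ) (θ : ℝ) (hθ : 0 < θ) (hθ1 : θ ≤ 1) :
    ∃ n0 : ℕ, ∀ (n a b : ℕ) (W : ℝ), n0 ≤ n → n ≤ a → n ≤ b → a ≤ C * n → b ≤ C * n → 0 < W →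
      W ≤ p * (a * b) →
      (∀ s s' : Bool, W * rr side block s s' ≤ nn a b s * nn a b s' * lam p s s') →
      ∃ M : Finset (EE side block p a b), (∀ e ∈ M, Valid e) ∧
        (∀ e ∈ M, ∀ f ∈ M, e ≠ f → Disjoint (AS e) (AS f)) ∧ (1 - θ) * W ≤ (M.card : ℝ) := by
  classical
  obtain ⟨κ, hκ, hnib⟩ := Pool.Agent.V11181.Nib.nibble' (Fintype.card (RR side block)) (θ / 2)
    (by positivity)
  set R : ℕ := Fintype.card (RR side block) with hR
  set z2 : ℕ := (Fintype.card Z) ^ 2 with hz2
  refine ⟨⌈((R : ℝ) ^ 2 + 1) * p * C ^ 2 / κ⌉₊ + ⌈2 * (z2 : ℝ) / θ⌉₊ + 1,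
    fun n a b W hn hna hnb haC hbC hW hWp hdeg => ?_⟩
  have hn1 : 1 ≤ n := by omega
  have hnR : (0 : ℝ) < n := by exact_mod_cast hn1
  have hb1 : ((R : ℝ) ^ 2 + 1) * p * C ^ 2 / κ ≤ n :=
    (Nat.le_ceil _).trans (Nat.cast_le.2 (by omega))
  have hb2 : 2 * (z2 : ℝ) / θ ≤ n := (Nat.le_ceil _).trans (Nat.cast_le.2 (by omega))
  have haR : (a : ℝ) ≤ C * n := by exact_mod_cast haC
  have hbR : (b : ℝ) ≤ C * n := by exact_mod_cast hbC
  have hWn : W ≤ p * C ^ 2 * n ^ 2 := by
    calc W ≤ p * (a * b) := hWp
      _ ≤ p * ((C * n) * (C * n)) := by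
          refine mul_le_mul_of_nonneg_left ?_ (Nat.cast_nonneg _)
          exact mul_le_mul haR hbR (Nat.cast_nonneg _) (by positivity)
      _ = p * C ^ 2 * n ^ 2 := by ring
  have hsmall : (R : ℝ) ^ 2 * W ≤ κ * n ^ 3 ∧ W ≤ κ * n ^ 3 := by
    rw [div_le_iff₀ hκ] at hb1
    have h1 : ((R : ℝ) ^ 2 + 1) * W ≤ κ * n ^ 3 := by
      calc ((R : ℝ) ^ 2 + 1) * W ≤ ((R : ℝ) ^ 2 + 1) * (p * C ^ 2 * n ^ 2) :=
            mul_le_mul_of_nonneg_left hWn (by positivity)
        _ = (((R : ℝ) ^ 2 + 1) * p * C ^ 2) * n ^ 2 := by ring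
        _ ≤ (n * κ) * n ^ 2 := mul_le_mul_of_nonneg_right hb1 (by positivity)
        _ = κ * n ^ 3 := by ring
    have h2 : 0 ≤ (R : ℝ) ^ 2 * W := by positivity
    constructor <;> nlinarith
  -- the sizes are positive
  have hKz : ∀ z : Z, n ≤ KK side block p a b (Sum.inl z) := by
    intro z
    simp only [KK, Sum.elim_inl, nn]
    split_ifs
    · exact hnb
    · exact hna
  have hKpos : ∀ j, 1 ≤ KK side block p a b j := by
    rintro (z | q)
    · exact hn1.trans (hKz z)
    · by_contra h
      have h0 : lam p (side q.1.1) (side q.1.2) = 0 := by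
        have : KK side block p a b (Sum.inr q) = lam p (side q.1.1) (side q.1.2) := rfl
        omega
      have h1 := hdeg (side q.1.1) (side q.1.2)
      rw [h0] at h1
      have h2 : 1 ≤ rr side block (side q.1.1) (side q.1.2) := by
        unfold rr
        exact card_pos.2 ⟨q, mem_filter.2 ⟨mem_univ _, rfl, rfl⟩⟩
      have h3 : (1 : ℝ) ≤ rr side block (side q.1.1) (side q.1.2) := by exact_mod_cast h2
      simp only [Nat.cast_zero, mul_zero] at h1
      nlinarith
  set P : ℕ := ∏ j, KK side block p a b j with hP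
  have hPpos : 0 < P := prod_pos fun j _ => hKpos j
  have hPR : (0 : ℝ) < P := by exact_mod_cast hPpos
  have hPn : n ^ 3 ≤ P := by
    rw [hP, Fintype.prod_sum_type]
    calc n ^ 3 ≤ n ^ (Fintype.card Z) := Nat.pow_le_pow_right hn1 hZ
      _ ≤ ∏ z : Z, KK side block p a b (Sum.inl z) := by
          rw [← card_univ]
          exact pow_card_le_prod _ _ _ fun z _ => hKz z
      _ = (∏ z : Z, KK side block p a b (Sum.inl z)) * 1 := (mul_one _).symm
      _ ≤ _ := Nat.mul_le_mul_left _ (Nat.one_le_iff_ne_zero.2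
          (prod_pos fun q _ => hKpos (Sum.inr q)).ne')
  have hPnR : (n : ℝ) ^ 3 ≤ P := by exact_mod_cast hPn
  set w : EE side block p a b → ℝ := fun e => if Valid e then W / P else 0 with hw
  have hWP : 0 < W / P := div_pos hW hPR
  have hsum : ∀ (Q : EE side block p a b → Prop) [DecidablePred Q],
      ∑ e ∈ univ.filter (fun e => Q e), w e ≤ (univ.filter (fun e => Q e)).card * (W / P) := by
    intro Q _
    rw [← nsmul_eq_mul, ← sum_const]
    refine sum_le_sum fun e _ => ?_
    simp only [hw]
    split_ifs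
    · exact le_rfl
    · exact hWP.le
  have hw0 : ∀ e, 0 ≤ w e := by
    intro e
    simp only [hw]
    split_ifs
    · exact hWP.le
    · exact le_rfl
  obtain ⟨M, hM1, hM2, hM3⟩ := hnib (EE side block p a b) ((Bool × ℕ) × (Bool × ℕ) × ℕ) AS w hw0
    (fun e => ⟨vert e q0, mem_image.2 ⟨q0, mem_filter.2 ⟨mem_univ _, Or.inl hq0⟩, rfl⟩⟩)
    (fun e => card_image_le.trans ((card_filter_le _ _).trans (le_of_eq card_univ)))
    (by
      intro v
      refine le_trans (hsum fun e => v ∈ AS e) ?_
      have h1 := deg_card (side := side) (block := block) (p := p) (a := a) (b := b) v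
      have h1R : ((univ.filter (fun e : EE side block p a b => v ∈ AS e)).card : ℝ) *
          (nn a b v.1.1 * nn a b v.2.1.1 * lam p v.1.1 v.2.1.1) ≤
          rr side block v.1.1 v.2.1.1 * P := by exact_mod_cast h1
      have h2 := hdeg v.1.1 v.2.1.1
      rcases Nat.eq_zero_or_pos (rr side block v.1.1 v.2.1.1) with h0 | h0
      · have h3 : (univ.filter (fun e : EE side block p a b => v ∈ AS e)) = ∅ := by
          rw [eq_empty_iff_forall_notMem]
          intro e he
          have he2 := (mem_filter.1 he).2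
          unfold AS at he2
          obtain ⟨q, hq, hv⟩ := mem_image.1 he2
          subst hv
          have : q ∈ (∅ : Finset (RR side block)) := by
            rw [← card_eq_zero.1 h0]
            exact mem_filter.2 ⟨mem_univ _, rfl, rfl⟩
          exact absurd this (notMem_empty _)
        rw [h3]
        simp
      · have h0R : (1 : ℝ) ≤ rr side block v.1.1 v.2.1.1 := by exact_mod_cast h0
        set D : ℝ := nn a b v.1.1 * nn a b v.2.1.1 * lam p v.1.1 v.2.1.1 with hD
        have hDpos : 0 < D := lt_of_lt_of_le (by positivity) h2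
        rw [mul_div_assoc', div_le_one hPR]
        have h4 : (((univ.filter (fun e : EE side block p a b => v ∈ AS e)).card : ℝ) * W) * D ≤
            P * D := by
          calc _ = (((univ.filter (fun e : EE side block p a b => v ∈ AS e)).card : ℝ) * D) * W := by
                ring
            _ ≤ (rr side block v.1.1 v.2.1.1 * P) * W := mul_le_mul_of_nonneg_right h1R hW.le
            _ = P * (W * rr side block v.1.1 v.2.1.1) := by ring
            _ ≤ P * D := mul_le_mul_of_nonneg_left h2 hPR.le
        exact le_of_mul_le_mul_right h4 hDpos)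
    (by
      intro u v huv
      refine le_trans (hsum fun e => u ∈ AS e ∧ v ∈ AS e) ?_
      have h1 := codeg_card (side := side) (block := block) (p := p) (a := a) (b := b) hn1 hna hnb
        u v huv
      have h1R : ((univ.filter (fun e : EE side block p a b => u ∈ AS e ∧ v ∈ AS e)).card : ℝ) *
          n ^ 3 ≤ R ^ 2 * P := by exact_mod_cast h1
      rw [mul_div_assoc', div_le_iff₀ hPR]
      have h3 : (0 : ℝ) < (n : ℝ) ^ 3 := by positivity
      refine le_of_mul_le_mul_right ?_ h3
      calc _ = (((univ.filter (fun e : EE side block p a b => u ∈ AS e ∧ v ∈ AS e)).card : ℝ) *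
            n ^ 3) * W := by ring
        _ ≤ (R ^ 2 * P) * W := mul_le_mul_of_nonneg_right h1R hW.le
        _ = P * (R ^ 2 * W) := by ring
        _ ≤ P * (κ * n ^ 3) := mul_le_mul_of_nonneg_left hsmall.1 hPR.le
        _ = κ * P * n ^ 3 := by ring)
    (by
      intro e
      have h1 : w e ≤ W / P := by
        simp only [hw]
        split_ifs
        · exact le_rfl
        · exact hWP.le
      refine h1.trans ?_
      rw [div_le_iff₀ hPR]
      exact hsmall.2.trans (mul_le_mul_of_nonneg_left hPnR hκ.le))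
  refine ⟨M, fun e he => ?_, hM1, ?_⟩
  · by_contra h
    have := hM2 e he
    simp only [hw, h, if_false] at this
    exact lt_irrefl _ this
  · -- the total weight
    have h1 : ∑ e, w e = (univ.filter (fun e : EE side block p a b => Valid e)).card * (W / P) := by
      rw [← nsmul_eq_mul, ← sum_const, sum_filter]
    have h2 : (univ.filter (fun e : EE side block p a b => Valid e)).card +
        (univ.filter (fun e : EE side block p a b => ¬ Valid e)).card = P := by
      rw [card_filter_add_card_filter_not, card_univ, Fintype.card_pi, hP]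
      simp
    have h3 := invalid_card (side := side) (block := block) (p := p) (a := a) (b := b) hna hnb
    have h2R : ((univ.filter (fun e : EE side block p a b => Valid e)).card : ℝ) +
        (univ.filter (fun e : EE side block p a b => ¬ Valid e)).card = P := by exact_mod_cast h2
    have h3R : ((univ.filter (fun e : EE side block p a b => ¬ Valid e)).card : ℝ) * n ≤
        z2 * P := by exact_mod_cast h3
    have h4 : (z2 : ℝ) ≤ θ / 2 * n := by
      rw [div_le_iff₀ hθ] at hb2
      linarith
    have h5 : ((univ.filter (fun e : EE side block p a b => ¬ Valid e)).card : ℝ) ≤ θ / 2 * P := by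
      refine le_of_mul_le_mul_right ?_ hnR
      calc _ ≤ (z2 : ℝ) * P := h3R
        _ ≤ (θ / 2 * n) * P := mul_le_mul_of_nonneg_right h4 hPR.le
        _ = θ / 2 * P * n := by ring
    have h6 : (1 - θ / 2) * W ≤ ∑ e, w e := by
      rw [h1]
      have h7 : (1 - θ / 2) * P ≤ ((univ.filter (fun e : EE side block p a b => Valid e)).card : ℝ) := by
        linarith
      calc (1 - θ / 2) * W = ((1 - θ / 2) * P) * (W / P) := by field_simp
        _ ≤ _ := mul_le_mul_of_nonneg_right h7 hWP.le
    calc (1 - θ) * W ≤ (1 - θ / 2) * ((1 - θ / 2) * W) := by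
          have : 0 ≤ θ ^ 2 * W := by positivity
          nlinarith
      _ ≤ (1 - θ / 2) * ∑ e, w e := mul_le_mul_of_nonneg_left h6 (by linarith)
      _ ≤ M.card := hM3

end

end Pool.Agent.W277X.PI
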