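import Pool.Agent.W277X.PI.Pack2

set_option autoImplicit false

/-! The representation given by a packing. -/

namespace Pool.Agent.W277X.PI

open Finset

/-- the vertices of the complete bipartite graph -/
def vv {a b : ℕ} : Fin a ⊕ Fin b → Bool × ℕ :=
  Sum.elim (fun g => (false, (g : ℕ))) (fun h => (true, (h : ℕ)))

theorem vv_inj {a b : ℕ} : Function.Injective (vv (a := a) (b := b)) := by
  rintro (g | g) (h | h) hgh
  · simp only [vv, Sum.elim_inl, Prod.mk.injEq, true_and] at hgh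
    rw [Fin.ext hgh]
  · simp [vv] at hgh
  · simp [vv] at hgh
  · simp only [vv, Sum.elim_inr, Prod.mk.injEq, true_and] at hgh
    rw [Fin.ext hgh]

section

variable {Z I : Type} [Fintype Z] [DecidableEq Z] [DecidableEq I] {side : Z → Bool} {block : Z → I}
  {p a b : ℕ}

/-- the vertex is in the block -/
def InB (τ : EE side block p a b × I) (v : Fin a ⊕ Fin b) : Prop :=
  ∃ z, block z = τ.2 ∧ vtx τ.1 z = vv v

theorem card_le_lam (M : Finset (EE side block p a b)) (hM : ∀ e ∈ M, Valid e)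
    (hd : ∀ e ∈ M, ∀ f ∈ M, e ≠ f → Disjoint (AS e) (AS f))
    (D : Finset (EE side block p a b × I)) (hD : ∀ τ ∈ D, τ.1 ∈ M)
    (u v : Fin a ⊕ Fin b)
    (huv : ((vv u).1 = false ∧ (vv v).1 = true) ∨ ((vv u).1 = (vv v).1 ∧ (vv u).2 < (vv v).2))
    (hu : ∀ τ ∈ D, InB τ u) (hv : ∀ τ ∈ D, InB τ v) :
    D.card ≤ lam p (vv u).1 (vv v).1 := by
  classical
  have h1 : ∀ τ ∈ D, ∃ q : RR side block, block q.1.1 = τ.2 ∧ vtx τ.1 q.1.1 = vv u ∧
      vtx τ.1 q.1.2 = vv v ∧ Act τ.1 q := by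
    intro τ hτ
    obtain ⟨z, hz1, hz2⟩ := hu τ hτ
    obtain ⟨z', hz1', hz2'⟩ := hv τ hτ
    have hs1 : side z = (vv u).1 := by rw [← hz2]; rfl
    have hs2 : side z' = (vv v).1 := by rw [← hz2']; rfl
    have hv1 : ((τ.1 (Sum.inl z)).val : ℕ) = (vv u).2 := by rw [← hz2]; rfl
    have hv2 : ((τ.1 (Sum.inl z')).val : ℕ) = (vv v).2 := by rw [← hz2']; rfl
    refine ⟨⟨(z, z'), ?_, hz1.trans hz1'.symm, ?_⟩, hz1, hz2, hz2', ?_⟩
    · rintro (h : z = z')
      subst h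
      rcases huv with ⟨h1, h2⟩ | ⟨h1, h2⟩
      · rw [← hs1] at h1
        rw [← hs2, h1] at h2
        exact absurd h2 (by decide)
      · omega
    · simp only [hs1, hs2]
      rintro ⟨h3, h4⟩
      rcases huv with ⟨h1, h2⟩ | ⟨h1, h2⟩
      · rw [h1] at h3
        exact absurd h3 (by decide)
      · rw [h3, h4] at h1
        exact absurd h1 (by decide)
    · unfold Act
      simp only [hs1, hs2]
      rcases huv with ⟨h1, h2⟩ | ⟨h1, h2⟩
      · left
        rw [h1, h2]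
        decide
      · right
        omega
  rcases D.eq_empty_or_nonempty with h0 | ⟨τ0, hτ0⟩
  · rw [h0]
    simp
  haveI : Nonempty (RR side block) := ⟨(h1 τ0 hτ0).choose⟩
  choose! Q hQ1 hQ2 hQ3 hQ4 using h1
  have hmem : ∀ τ ∈ D, vert τ.1 (Q τ) ∈ AS τ.1 := fun τ hτ =>
    mem_image.2 ⟨Q τ, mem_filter.2 ⟨mem_univ _, hQ4 τ hτ⟩, rfl⟩
  have h2 : D.card ≤ (range (lam p (vv u).1 (vv v).1)).card := by
    refine card_le_card_of_injOn (fun τ => ((τ.1 (Sum.inr (Q τ))).val : ℕ)) ?_ ?_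
    · intro τ hτ
      have hs1 : side (Q τ).1.1 = (vv u).1 := by rw [← hQ2 τ hτ]; rfl
      have hs2 : side (Q τ).1.2 = (vv v).1 := by rw [← hQ3 τ hτ]; rfl
      have h3 := (τ.1 (Sum.inr (Q τ))).2
      simp only [coe_range, Set.mem_Iio]
      simp only [KK, Sum.elim_inr, hs1, hs2] at h3
      exact h3
    · intro τ hτ τ' hτ' heq
      simp only at heq
      have hτ1 : τ ∈ D := hτ
      have hτ2 : τ' ∈ D := hτ'
      have hvert : vert τ.1 (Q τ) = vert τ'.1 (Q τ') := by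
        unfold vert
        rw [hQ2 τ hτ1, hQ3 τ hτ1, hQ2 τ' hτ2, hQ3 τ' hτ2, heq]
      have he : τ.1 = τ'.1 := by
        by_contra hne
        have h3 := hd _ (hD τ hτ1) _ (hD τ' hτ2) hne
        exact (disjoint_left.1 h3) (hmem τ hτ1) (hvert ▸ hmem τ' hτ2)
      have hz : (Q τ).1.1 = (Q τ').1.1 := by
        refine hM _ (hD τ hτ1) _ _ ?_
        rw [hQ2 τ hτ1, he, hQ2 τ' hτ2]
      refine Prod.ext he ?_
      rw [← hQ1 τ hτ1, ← hQ1 τ' hτ2, hz]
  rwa [card_range] at h2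

end

/-! ### the template with the block sizes `X i`, `Y i` -/

section

variable {I : Type} [Fintype I] [DecidableEq I] (X Y : I → ℕ)

/-- the vertices of the template -/
abbrev ZZ : Type := (Σ i, Fin (X i)) ⊕ (Σ i, Fin (Y i))

/-- the sides -/
def sd : ZZ X Y → Bool := Sum.elim (fun _ => false) (fun _ => true)

/-- the blocks -/
def bk : ZZ X Y → I := Sum.elim (fun s => s.1) (fun s => s.1)

theorem rr_ff : rr (sd X Y) (bk X Y) false false ≤ ∑ i, (X i * X i - X i) := by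
  classical
  have h1 : rr (sd X Y) (bk X Y) false false ≤
      ((univ : Finset I).sigma (fun i => (univ : Finset (Fin (X i))).offDiag)).card := by
    unfold rr
    rw [← card_map ⟨Subtype.val, Subtype.val_injective⟩]
    refine (card_le_card ?_).trans (card_image_le (f := fun (s : Σ i, Fin (X i) × Fin (X i)) =>
      ((Sum.inl ⟨s.1, s.2.1⟩, Sum.inl ⟨s.1, s.2.2⟩) : ZZ X Y × ZZ X Y)))
    intro x hx
    obtain ⟨⟨⟨z, z'⟩, hne, hb, hc⟩, hq, rfl⟩ := mem_map.1 hx
    obtain ⟨-, h1, h2⟩ := mem_filter.1 hq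
    rcases z with ⟨i, j⟩ | z
    · rcases z' with ⟨i', k⟩ | z'
      · have : i = i' := hb
        subst this
        refine mem_image.2 ⟨⟨i, (j, k)⟩, ?_, rfl⟩
        rw [mem_sigma]
        refine ⟨mem_univ _, mem_offDiag.2 ⟨mem_univ _, mem_univ _, ?_⟩⟩
        rintro (h : j = k)
        exact hne (by rw [h])
      · exact absurd h2 (by simp [sd])
    · exact absurd h1 (by simp [sd])
  rw [card_sigma] at h1
  refine h1.trans (le_of_eq (sum_congr rfl fun i _ => ?_))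
  rw [offDiag_card, card_univ, Fintype.card_fin]

theorem rr_tt : rr (sd X Y) (bk X Y) true true ≤ ∑ i, (Y i * Y i - Y i) := by
  classical
  have h1 : rr (sd X Y) (bk X Y) true true ≤
      ((univ : Finset I).sigma (fun i => (univ : Finset (Fin (Y i))).offDiag)).card := by
    unfold rr
    rw [← card_map ⟨Subtype.val, Subtype.val_injective⟩]
    refine (card_le_card ?_).trans (card_image_le (f := fun (s : Σ i, Fin (Y i) × Fin (Y i)) =>
      ((Sum.inr ⟨s.1, s.2.1⟩, Sum.inr ⟨s.1, s.2.2⟩) : ZZ X Y × ZZ X Y)))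
    intro x hx
    obtain ⟨⟨⟨z, z'⟩, hne, hb, hc⟩, hq, rfl⟩ := mem_map.1 hx
    obtain ⟨-, h1, h2⟩ := mem_filter.1 hq
    rcases z with z | ⟨i, j⟩
    · exact absurd h1 (by simp [sd])
    · rcases z' with z' | ⟨i', k⟩
      · exact absurd h2 (by simp [sd])
      · have : i = i' := hb
        subst this
        refine mem_image.2 ⟨⟨i, (j, k)⟩, ?_, rfl⟩
        rw [mem_sigma]
        refine ⟨mem_univ _, mem_offDiag.2 ⟨mem_univ _, mem_univ _, ?_⟩⟩
        rintro (h : j = k)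
        exact hne (by rw [h])
  rw [card_sigma] at h1
  refine h1.trans (le_of_eq (sum_congr rfl fun i _ => ?_))
  rw [offDiag_card, card_univ, Fintype.card_fin]

theorem rr_ft : rr (sd X Y) (bk X Y) false true ≤ ∑ i, X i * Y i := by
  classical
  have h1 : rr (sd X Y) (bk X Y) false true ≤
      ((univ : Finset I).sigma (fun i => (univ : Finset (Fin (X i) × Fin (Y i))))).card := by
    unfold rr
    rw [← card_map ⟨Subtype.val, Subtype.val_injective⟩]
    refine (card_le_card ?_).trans (card_image_le (f := fun (s : Σ i, Fin (X i) × Fin (Y i)) =>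
      ((Sum.inl ⟨s.1, s.2.1⟩, Sum.inr ⟨s.1, s.2.2⟩) : ZZ X Y × ZZ X Y)))
    intro x hx
    obtain ⟨⟨⟨z, z'⟩, hne, hb, hc⟩, hq, rfl⟩ := mem_map.1 hx
    obtain ⟨-, h1, h2⟩ := mem_filter.1 hq
    rcases z with ⟨i, j⟩ | z
    · rcases z' with z' | ⟨i', k⟩
      · exact absurd h2 (by simp [sd])
      · have : i = i' := hb
        subst this
        exact mem_image.2 ⟨⟨i, (j, k)⟩, by simp, rfl⟩
    · exact absurd h1 (by simp [sd])
  rw [card_sigma] at h1
  refine h1.trans (le_of_eq (sum_congr rfl fun i _ => ?_))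
  rw [card_univ, Fintype.card_prod, Fintype.card_fin, Fintype.card_fin]

theorem rr_tf : rr (sd X Y) (bk X Y) true false = 0 := by
  unfold rr
  rw [card_eq_zero, filter_eq_empty_iff]
  rintro q - h
  exact q.2.2.2 h

variable {X Y} {p a b : ℕ}

/-- each block covers at least `X i * Y i` pairs -/
theorem cover_card (τ : EE (sd X Y) (bk X Y) p a b × I) (hv : Valid τ.1) (i : I) (hi : τ.2 = i)
    [DecidablePred fun g : Fin a × Fin b => InB τ (Sum.inl g.1) ∧ InB τ (Sum.inr g.2)] :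
    X i * Y i ≤ (univ.filter (fun g : Fin a × Fin b =>
      InB τ (Sum.inl g.1) ∧ InB τ (Sum.inr g.2))).card := by
  classical
  subst hi
  have ha : ∀ j : Fin (X τ.2), ((τ.1 (Sum.inl (Sum.inl ⟨τ.2, j⟩))).val : ℕ) < a := by
    intro j
    have h := (τ.1 (Sum.inl (Sum.inl ⟨τ.2, j⟩))).2
    simpa [KK, nn, sd] using h
  have hb : ∀ k : Fin (Y τ.2), ((τ.1 (Sum.inl (Sum.inr ⟨τ.2, k⟩))).val : ℕ) < b := by
    intro k
    have h := (τ.1 (Sum.inl (Sum.inr ⟨τ.2, k⟩))).2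
    simpa [KK, nn, sd] using h
  have h1 : (univ : Finset (Fin (X τ.2) × Fin (Y τ.2))).card = X τ.2 * Y τ.2 := by
    rw [card_univ, Fintype.card_prod, Fintype.card_fin, Fintype.card_fin]
  rw [← h1]
  refine card_le_card_of_injOn (fun x => ((⟨_, ha x.1⟩, ⟨_, hb x.2⟩) : Fin a × Fin b)) ?_ ?_
  · intro x _
    simp only [coe_filter, mem_univ, true_and, Set.mem_setOf_eq]
    exact ⟨⟨Sum.inl ⟨τ.2, x.1⟩, rfl, rfl⟩, ⟨Sum.inr ⟨τ.2, x.2⟩, rfl, rfl⟩⟩
  · rintro ⟨j, k⟩ - ⟨j', k'⟩ - h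
    simp only [Prod.mk.injEq, Fin.mk.injEq] at h
    have e1 := hv (Sum.inl ⟨τ.2, j⟩) (Sum.inl ⟨τ.2, j'⟩) (Prod.ext rfl h.1)
    have e2 := hv (Sum.inr ⟨τ.2, k⟩) (Sum.inr ⟨τ.2, k'⟩) (Prod.ext rfl h.2)
    simp only [Sum.inl.injEq, Sum.inr.injEq, Sigma.mk.injEq, heq_eq_eq, true_and] at e1 e2
    rw [e1, e2]

end

end Pool.Agent.W277X.PI
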