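import Pool.Agent.W277X.PI.Build

set_option autoImplicit false

/-! The upper bound. -/

namespace Pool.Agent.W277X.PI

open Finset Filter Topology

theorem upper {I : Type} [Fintype I] [DecidableEq I] [Nonempty I] (X Y : I → ℕ) (p : ℕ) (hp : 1 ≤ p)
    (hX : ∀ i, 1 ≤ X i) (hY : ∀ i, 1 ≤ Y i) (hZ : 3 ≤ ∑ i, X i + ∑ i, Y i) (C : ℕ) (θ : ℝ)
    (hθ : 0 < θ) (hθ1 : θ ≤ 1) :
    ∃ n0 : ℕ, ∀ (n a b : ℕ) (W : ℝ), n0 ≤ n → n ≤ a → n ≤ b → a ≤ C * n → b ≤ C * n → 0 < W →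
      W * (∑ i, (X i : ℝ) * Y i) ≤ p * (a * b) →
      W * (∑ i, (X i : ℝ) * (X i - 1)) ≤ (p - 1) * a ^ 2 →
      W * (∑ i, (Y i : ℝ) * (Y i - 1)) ≤ (p - 1) * b ^ 2 →
      ∃ (t : ℕ) (S : Fin a ⊕ Fin b → Finset (Fin t)),
        (∀ u v, u ≠ v → ((completeBipartiteGraph (Fin a) (Fin b)).Adj u v ↔
          p ≤ (S u ∩ S v).card)) ∧
        (t : ℝ) ≤ p * (a * b) - (1 - θ) * W * ((∑ i, (X i : ℝ) * Y i) - Fintype.card I) := by
  classical
  obtain ⟨i0⟩ := ‹Nonempty I›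
  obtain ⟨n0, h⟩ := pack (sd X Y) (bk X Y) p
    ⟨(Sum.inl ⟨i0, ⟨0, hX i0⟩⟩, Sum.inr ⟨i0, ⟨0, hY i0⟩⟩), by simp, rfl, by simp [sd]⟩
    (by simp [sd]) (by simpa using hZ) C θ hθ hθ1
  refine ⟨n0, fun n a b W hn hna hnb haC hbC hW h1 h2 h3 => ?_⟩
  have hPge : (Fintype.card I : ℝ) ≤ ∑ i, (X i : ℝ) * Y i := by
    have : (Fintype.card I : ℝ) = ∑ _i : I, (1 : ℝ) := by simp
    rw [this]
    refine sum_le_sum fun i _ => ?_
    have e1 : (1 : ℝ) ≤ X i := by exact_mod_cast hX i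
    have e2 : (1 : ℝ) ≤ Y i := by exact_mod_cast hY i
    nlinarith
  have hI1 : (1 : ℝ) ≤ Fintype.card I := by
    have : 0 < Fintype.card I := Fintype.card_pos_iff.2 ⟨i0⟩
    exact_mod_cast this
  have hWp : W ≤ p * (a * b) := by
    refine le_trans ?_ h1
    nlinarith
  have hp1 : ((p - 1 : ℕ) : ℝ) = (p : ℝ) - 1 := by
    rw [Nat.cast_sub hp]
    simp
  have hff : (rr (sd X Y) (bk X Y) false false : ℝ) ≤ ∑ i, (X i : ℝ) * (X i - 1) := by
    have e := rr_ff X Y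
    calc (rr (sd X Y) (bk X Y) false false : ℝ) ≤ ((∑ i, (X i * X i - X i) : ℕ) : ℝ) := by
          exact_mod_cast e
      _ = ∑ i, (X i : ℝ) * (X i - 1) := by
          rw [Nat.cast_sum]
          refine sum_congr rfl fun i _ => ?_
          rw [Nat.cast_sub (Nat.le_mul_self _)]
          push_cast
          ring
  have htt : (rr (sd X Y) (bk X Y) true true : ℝ) ≤ ∑ i, (Y i : ℝ) * (Y i - 1) := by
    have e := rr_tt X Y
    calc (rr (sd X Y) (bk X Y) true true : ℝ) ≤ ((∑ i, (Y i * Y i - Y i) : ℕ) : ℝ) := by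
          exact_mod_cast e
      _ = ∑ i, (Y i : ℝ) * (Y i - 1) := by
          rw [Nat.cast_sum]
          refine sum_congr rfl fun i _ => ?_
          rw [Nat.cast_sub (Nat.le_mul_self _)]
          push_cast
          ring
  have hft : (rr (sd X Y) (bk X Y) false true : ℝ) ≤ ∑ i, (X i : ℝ) * Y i := by
    have e := rr_ft X Y
    calc (rr (sd X Y) (bk X Y) false true : ℝ) ≤ ((∑ i, X i * Y i : ℕ) : ℝ) := by
          exact_mod_cast e
      _ = _ := by push_cast; rfl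
  obtain ⟨M, hM, hd, hcard⟩ := h n a b W hn hna hnb haC hbC hW hWp (by
    intro s s'
    cases s <;> cases s'
    · simp only [nn, lam, if_true, Bool.false_eq_true, if_false, hp1]
      calc _ ≤ W * (∑ i, (X i : ℝ) * (X i - 1)) := mul_le_mul_of_nonneg_left hff hW.le
        _ ≤ _ := h2
        _ = _ := by ring
    · simp only [nn, lam, if_true, Bool.false_eq_true, if_false]
      calc _ ≤ W * (∑ i, (X i : ℝ) * Y i) := mul_le_mul_of_nonneg_left hft hW.le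
        _ ≤ _ := h1
        _ = _ := by ring
    · rw [rr_tf]
      simp only [Nat.cast_zero, mul_zero]
      positivity
    · simp only [nn, lam, if_true, hp1]
      calc _ ≤ W * (∑ i, (Y i : ℝ) * (Y i - 1)) := mul_le_mul_of_nonneg_left htt hW.le
        _ ≤ _ := h3
        _ = _ := by ring)
  obtain ⟨t, S, hS, ht⟩ := build hp M hM hd
  refine ⟨t, S, hS, ?_⟩
  have htR : (t : ℝ) + M.card * ∑ i, (X i : ℝ) * Y i ≤ M.card * Fintype.card I + p * (a * b) := by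
    exact_mod_cast ht
  have h4 : (1 - θ) * W * ((∑ i, (X i : ℝ) * Y i) - Fintype.card I) ≤
      M.card * ((∑ i, (X i : ℝ) * Y i) - Fintype.card I) :=
    mul_le_mul_of_nonneg_right hcard (by linarith)
  linarith

end Pool.Agent.W277X.PI
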